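import Pool.Agent.Helper68.LM.Geo

/-!
# Project LM (MP_cb927e_an), module COV: operations on covers by arcs
-/

set_option autoImplicit false

open MeasureTheory Set Filter Topology
open scoped ENNReal RealInnerProductSpace

namespace Pool.Agent.Helper41.LM

open Pool.Agent.Helper68.LM

private lemma isArc_mono_COV {a b κ κ' : ℝ} {G : ℝ → Pl} (h : IsArc a b κ G) (hκ : κ' ≤ κ) :
    IsArc a b κ' G := by
  obtain ⟨hab, c, u, v, φ, h1, h2, h3, h4, h5, h6, h7⟩ := h
  exact ⟨hab, c, u, v, φ, h1, h2, h3, h4, h5, h6, fun t ht => ⟨(h7 t ht).1, hκ.trans (h7 t ht).2⟩⟩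

private lemma small_arc_COV (b : ℝ) (hb : 0 < b) (hb1 : b ≤ 1) : ∃ G : ℝ → Pl, IsArc 0 b 1 G := by
  refine ⟨fun t => (0 : Pl) + t • (EuclideanSpace.single (0 : Fin 2) (1 : ℝ)) +
    (t ^ 2 / 2) • (EuclideanSpace.single (1 : Fin 2) (1 : ℝ)), hb, 0,
    EuclideanSpace.single (0 : Fin 2) (1 : ℝ), EuclideanSpace.single (1 : Fin 2) (1 : ℝ),
    fun t => t ^ 2 / 2, ?_, ?_, ?_, ?_, ?_, ?_, ?_⟩
  · simp
  · simp
  · simp [EuclideanSpace.inner_single_left]
  · intro t
    rfl
  · fun_prop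
  · fun_prop
  · have hd : deriv (fun t : ℝ => t ^ 2 / 2) = fun t => t := by
      funext t
      have h1 : HasDerivAt (fun t : ℝ => t ^ 2 / 2) t t := by
        have h2 := (hasDerivAt_pow 2 t).div_const 2
        have h3 : ((2 : ℕ) : ℝ) * t ^ (2 - 1) / 2 = t := by
          norm_num
        rw [h3] at h2
        exact h2
      exact h1.deriv
    intro t ht
    rw [hd]
    constructor
    · rw [abs_of_pos ht.1]
      exact (ht.2.le).trans hb1
    · simp

/-- the weight in the definition of `Cover` -/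
private noncomputable def wt_COV (p L κ : ℝ) : ℝ :=
  L * (1 + Real.log (1 + 1 / (L * κ))) ^ (1 / p)

private lemma small_sum_COV (p : ℝ) (hp : 1 < p) :
    Summable (fun i : ℕ => wt_COV p ((1 / 2 : ℝ) ^ (i + 1)) 1) := by
  have hs : Summable (fun i : ℕ => ((i : ℝ) ^ 1 * (1 / 2 : ℝ) ^ i) / 2 + 3 / 2 * (1 / 2 : ℝ) ^ i) := by
    apply Summable.add
    · apply Summable.div_const
      apply summable_pow_mul_geometric_of_norm_lt_one
      norm_num
    · apply Summable.mul_left
      apply summable_geometric_of_lt_one <;> norm_num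
  refine Summable.of_nonneg_of_le ?_ ?_ hs
  · intro i
    unfold wt_COV
    have h1 : 0 ≤ Real.log (1 + 1 / ((1 / 2 : ℝ) ^ (i + 1) * 1)) := by
      apply Real.log_nonneg
      have : 0 ≤ 1 / ((1 / 2 : ℝ) ^ (i + 1) * 1) := by positivity
      linarith
    have h2 : 0 ≤ 1 + Real.log (1 + 1 / ((1 / 2 : ℝ) ^ (i + 1) * 1)) := by linarith
    have h3 := Real.rpow_nonneg h2 (1 / p)
    positivity
  · intro i
    unfold wt_COV
    have e1 : 1 / ((1 / 2 : ℝ) ^ (i + 1) * 1) = 2 ^ (i + 1) := by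
      rw [mul_one, one_div, one_div, inv_pow, inv_inv]
    rw [e1]
    have h0 : (1 : ℝ) ≤ 2 ^ (i + 1) := one_le_pow₀ (by norm_num)
    have h1 : Real.log (1 + 2 ^ (i + 1)) ≤ i + 2 := by
      have h2 : (1 : ℝ) + 2 ^ (i + 1) ≤ 2 ^ (i + 2) := by
        rw [pow_succ 2 (i + 1)]
        linarith
      have h3 : Real.log (1 + 2 ^ (i + 1)) ≤ Real.log (2 ^ (i + 2)) :=
        Real.log_le_log (by positivity) h2
      rw [Real.log_pow] at h3
      have h4 : Real.log 2 ≤ 1 := by
        have := Real.log_two_lt_d9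
        linarith
      have h5 : ((i + 2 : ℕ) : ℝ) * Real.log 2 ≤ ((i + 2 : ℕ) : ℝ) * 1 :=
        mul_le_mul_of_nonneg_left h4 (Nat.cast_nonneg _)
      push_cast at h5 h3
      linarith
    have h1' : 0 ≤ Real.log (1 + 2 ^ (i + 1)) := Real.log_nonneg (by linarith)
    have h6 : (1 + Real.log (1 + 2 ^ (i + 1))) ^ (1 / p) ≤ 1 + Real.log (1 + 2 ^ (i + 1)) := by
      have h7 : (1 + Real.log (1 + 2 ^ (i + 1))) ^ (1 / p) ≤
          (1 + Real.log (1 + 2 ^ (i + 1))) ^ (1 : ℝ) := by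
        apply Real.rpow_le_rpow_of_exponent_le
        · linarith
        · rw [div_le_one (by linarith)]
          exact hp.le
      rwa [Real.rpow_one] at h7
    have h8 : (1 / 2 : ℝ) ^ (i + 1) * (1 + Real.log (1 + 2 ^ (i + 1))) ^ (1 / p) ≤
        (1 / 2 : ℝ) ^ (i + 1) * (i + 3) := by
      apply mul_le_mul_of_nonneg_left _ (by positivity)
      linarith
    refine h8.trans (le_of_eq ?_)
    rw [pow_succ]
    ring

private lemma small_COV (p : ℝ) (hp : 1 < p) : ∃ (G : ℕ → ℝ → Pl) (a b κ : ℕ → ℝ),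
    (∀ i, IsArc (a i) (b i) (κ i) (G i) ∧ 0 < κ i ∧ κ i ≤ 1) ∧
    Summable (fun i => wt_COV p (b i - a i) (κ i)) := by
  have hA : ∀ i : ℕ, ∃ G : ℝ → Pl, IsArc 0 ((1 / 2 : ℝ) ^ (i + 1)) 1 G := fun i =>
    small_arc_COV _ (by positivity) (pow_le_one₀ (by norm_num) (by norm_num))
  choose G hG using hA
  refine ⟨G, fun _ => 0, fun i => (1 / 2 : ℝ) ^ (i + 1), fun _ => 1,
    fun i => ⟨hG i, one_pos, le_rfl⟩, ?_⟩
  simpa using small_sum_COV p hp

theorem hCOV : StCOV := by
  intro p hp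
  refine ⟨?_, ?_, ?_, ?_⟩
  · rintro Γ Γ' hsub ⟨G, a, b, κ, h1, h2, h3⟩
    exact ⟨G, a, b, κ, h1, measure_mono_null (sdiff_subset_sdiff_left hsub) h2, h3⟩
  · rintro Γ Γ' ⟨G, a, b, κ, h1, h2, h3⟩ ⟨G', a', b', κ', h1', h2', h3'⟩
    obtain ⟨e, -⟩ : ∃ e : ℕ ≃ ℕ ⊕ ℕ, True := ⟨Equiv.natSumNatEquivNat.symm, trivial⟩
    refine ⟨fun i => Sum.elim G G' (e i), fun i => Sum.elim a a' (e i),
      fun i => Sum.elim b b' (e i), fun i => Sum.elim κ κ' (e i), ?_, ?_, ?_⟩
    · intro i
      dsimp only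
      rcases h : e i with j | j
      · exact h1 j
      · exact h1' j
    · refine measure_mono_null ?_ (measure_union_null h2 h2')
      rintro x ⟨hx, hn⟩
      rw [mem_iUnion, not_exists] at hn
      rcases hx with hx | hx
      · left
        refine ⟨hx, ?_⟩
        rw [mem_iUnion, not_exists]
        intro j hj
        have := hn (e.symm (Sum.inl j))
        simp only [Equiv.apply_symm_apply, Sum.elim_inl] at this
        exact this hj
      · right
        refine ⟨hx, ?_⟩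
        rw [mem_iUnion, not_exists]
        intro j hj
        have := hn (e.symm (Sum.inr j))
        simp only [Equiv.apply_symm_apply, Sum.elim_inr] at this
        exact this hj
    · have hs : Summable (fun x : ℕ ⊕ ℕ => (Sum.elim b b' x - Sum.elim a a' x) *
          (1 + Real.log (1 + 1 / ((Sum.elim b b' x - Sum.elim a a' x) * Sum.elim κ κ' x))) ^
            (1 / p)) := by
        exact (HasSum.sum (f := fun x : ℕ ⊕ ℕ => (Sum.elim b b' x - Sum.elim a a' x) *
          (1 + Real.log (1 + 1 / ((Sum.elim b b' x - Sum.elim a a' x) * Sum.elim κ κ' x))) ^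
            (1 / p)) h3.hasSum h3'.hasSum).summable
      exact (e.summable_iff (f := fun x : ℕ ⊕ ℕ => (Sum.elim b b' x - Sum.elim a a' x) *
          (1 + Real.log (1 + 1 / ((Sum.elim b b' x - Sum.elim a a' x) * Sum.elim κ κ' x))) ^
            (1 / p))).2 hs
  · intro Γ hΓ
    obtain ⟨G, a, b, κ, h1, h2⟩ := small_COV p hp
    exact ⟨G, a, b, κ, h1, measure_mono_null sdiff_subset hΓ, h2⟩
  · intro a b κ G hG hκ
    obtain ⟨G', a', b', κ', h1, h2⟩ := small_COV p hp
    refine ⟨fun i => Nat.casesOn i G G', fun i => Nat.casesOn i a a',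
      fun i => Nat.casesOn i b b', fun i => Nat.casesOn i (min κ 1) κ', ?_, ?_, ?_⟩
    · rintro (_ | i)
      · exact ⟨isArc_mono_COV hG (min_le_left _ _), lt_min hκ one_pos, min_le_right _ _⟩
      · exact h1 i
    · have : G '' Icc a b \ ⋃ i : ℕ, (Nat.casesOn (motive := fun _ => ℝ → Pl) i G G') ''
          Icc (Nat.casesOn (motive := fun _ => ℝ) i a a')
            (Nat.casesOn (motive := fun _ => ℝ) i b b') = ∅ := by
        rw [Set.sdiff_eq_empty]
        exact Set.subset_iUnion (fun i : ℕ => (Nat.casesOn (motive := fun _ => ℝ → Pl) i G G') ''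
          Icc (Nat.casesOn (motive := fun _ => ℝ) i a a')
            (Nat.casesOn (motive := fun _ => ℝ) i b b')) 0
      rw [this]
      exact measure_empty
    · rw [← summable_nat_add_iff 1]
      exact h2

end Pool.Agent.Helper41.LM
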